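import Mathlib
import Pool.Agent.Y203.QC.Phys

/-!
Job QC-Q18 (MP_7d4c8f_an, project QC of helper203): values of configurations.
Port of `Pool.Agent.Helper981.QA.P18` to the machine with borrow.
-/

set_option autoImplicit false

open Set Filter Topology MeasureTheory

namespace Pool.Agent.Y203.QC

open Pool.Agent.Aub (mm lam Stk dt stp Sc S1 S2 Qx gT gt cT ct hC hX Dg Ty stg rho mu posn peel cE cF
  DD rb subTy subP subC sub broken Clamp Ix Zs stk reg mkz Wt f0 f1 f4 f6 g0 g1 M0 M4 M6 N1 tyj pj
  Cell sT Dle vb tyn Jx EE mkp pz py pth LL psi Rho Realz Th yo PerField IsFlow action hT lat IsCurve)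

theorem Q18_MMpos : (0 : ℝ) < MM := by unfold MM; norm_num

theorem Q18_Vz (D : Fin 3 → ℕ) :
    Vz (fun k => (D k : ℤ)) = 16769025 * (D 0 : ℝ) + 4095 * (D 1 : ℝ) + D 2 := by
  unfold Vz bb
  push_cast
  ring

theorem Q18_v0 : v0 = 1 / 4094 := by
  unfold v0 bb
  norm_num

theorem Q18_v0_fix : (16769025 + 4095 + 1 + v0) / MM = v0 := by
  rw [Q18_v0]
  unfold MM
  norm_num

theorem val_range (l : List Cell) (h : Dle l) : 0 ≤ val l ∧ val l ≤ 2 := by
  induction l with
  | nil =>
    rw [val, Q18_v0]
    norm_num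
  | cons a tl ih =>
    have h1 : Dle tl := fun b hb k => h b (List.mem_cons_of_mem _ hb) k
    obtain ⟨h2, h3⟩ := ih h1
    have ha : ∀ k, (a.D k : ℝ) ≤ 4096 := by
      intro k
      have := h a List.mem_cons_self k
      unfold Pool.Agent.Aub.mm at this
      exact_mod_cast this
    have ha0 : ∀ k, (0 : ℝ) ≤ (a.D k : ℝ) := fun k => Nat.cast_nonneg _
    rw [val, Q18_Vz]
    have e0 := ha 0; have e1 := ha 1; have e2 := ha 2
    have f0 := ha0 0; have f1 := ha0 1; have f2 := ha0 2
    constructor
    · apply div_nonneg _ Q18_MMpos.le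
      positivity
    · rw [div_le_iff₀ Q18_MMpos]
      unfold MM
      linarith

theorem vN_val (N : ℕ) (l : List Cell) (h : Dle l) : |vN N l - val l| ≤ 2 / MM ^ N := by
  induction N generalizing l with
  | zero =>
    obtain ⟨h1, h2⟩ := val_range l h
    rw [vN, pow_zero, div_one, abs_le]
    constructor <;> linarith
  | succ N ih =>
    have hMM := Q18_MMpos
    cases l with
    | nil =>
      have h1 := ih [] h
      have e1 : vN (N + 1) [] - val [] = (vN N [] - val []) / MM := by
        rw [vN, Q18_Vz]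
        have e2 : val [] = (16769025 + 4095 + 1 + v0) / MM := by
          rw [val]; exact Q18_v0_fix.symm
        have e3 : (vN N [] - val []) / MM = (vN N [] - v0) / MM := by rw [val]
        rw [e3, e2]
        simp only [hd, zc, List.tail_nil, Nat.cast_one]
        ring
      rw [e1, abs_div, abs_of_pos hMM, pow_succ, ← div_div]
      exact div_le_div_of_nonneg_right h1 hMM.le
    | cons a tl =>
      have h1 := ih tl (fun b hb k => h b (List.mem_cons_of_mem _ hb) k)
      have e1 : vN (N + 1) (a :: tl) - val (a :: tl) = (vN N tl - val tl) / MM := by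
        rw [vN, val]
        simp only [hd, List.tail_cons]
        ring
      rw [e1, abs_div, abs_of_pos hMM, pow_succ, ← div_div]
      exact div_le_div_of_nonneg_right h1 hMM.le

theorem good_facts (l : List Cell) (h : Good l) :
    Dle l ∧ (∀ ty, Val ty l) ∧ (∀ N, base N l) := by
  induction l with
  | nil =>
    refine ⟨fun a ha => absurd ha (by simp), fun ty => by rw [Val]; trivial, fun N => ?_⟩
    induction N with
    | zero => trivial
    | succ N ih => exact ⟨rfl, ih⟩
  | cons a tl ih =>
    obtain ⟨h1, h2, h3⟩ := ih (fun b hb => h b (List.mem_cons_of_mem _ hb))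
    obtain ⟨hb, hc, hD⟩ := h a List.mem_cons_self
    refine ⟨?_, ?_, ?_⟩
    · intro b hb' k
      rcases List.mem_cons.mp hb' with rfl | hb'
      · exact (hD k).2.le
      · exact h1 b hb' k
    · intro ty
      rw [Val]
      refine ⟨fun _ => by rw [hb, hc]; rfl, h2 _⟩
    · intro N
      cases N with
      | zero => trivial
      | succ N => exact ⟨hb, h3 N⟩

theorem val_dense (t : ℝ) (h0 : 0 ≤ t) (h1 : t ≤ 1) (j : ℕ) :
    ∃ l : List Cell, Good l ∧ |val l - v0 - t| ≤ 1 / MM ^ j := by
  induction j generalizing t with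
  | zero =>
    refine ⟨[], fun a ha => absurd ha (by simp), ?_⟩
    simp only [val, pow_zero, sub_self, zero_sub, abs_neg, div_one]
    rw [abs_of_nonneg h0]; exact h1
  | succ j ih =>
    have hMM := Q18_MMpos
    obtain ⟨n, hn, hn0, hn1⟩ : ∃ n : ℕ, n < 68669157375 ∧ 0 ≤ t * MM - n ∧ t * MM - n ≤ 1 := by
      have hx0 : 0 ≤ t * MM := mul_nonneg h0 hMM.le
      have hx1 : t * MM ≤ 68669157375 := by
        have : (MM : ℝ) = 68669157375 := rfl
        rw [this]; nlinarith
      rcases Nat.lt_or_ge ⌊t * MM⌋₊ 68669157375 with h | h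
      · refine ⟨⌊t * MM⌋₊, h, ?_, ?_⟩
        · have := Nat.floor_le hx0
          linarith
        · have := (Nat.lt_floor_add_one (t * MM)).le
          linarith
      · have h2 : ((68669157375 : ℕ) : ℝ) ≤ t * MM := (Nat.le_floor_iff hx0).mp h
        refine ⟨68669157374, by norm_num, ?_, ?_⟩
        · push_cast at h2 ⊢; linarith
        · push_cast; linarith
    obtain ⟨l', hl', hv⟩ := ih (t * MM - n) hn0 hn1
    have hdig : 16769025 * (n / 16769025 + 1) + 4095 * (n / 4095 % 4095 + 1) + (n % 4095 + 1) =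
        n + (16769025 + 4095 + 1) := by omega
    refine ⟨⟨false, false, ![n / 16769025 + 1, n / 4095 % 4095 + 1, n % 4095 + 1]⟩ :: l', ?_, ?_⟩
    · intro a ha
      rcases List.mem_cons.mp ha with rfl | ha
      · refine ⟨rfl, rfl, fun k => ?_⟩
        unfold Pool.Agent.Aub.mm
        fin_cases k
        · show 0 < n / 16769025 + 1 ∧ n / 16769025 + 1 < 4096
          omega
        · show 0 < n / 4095 % 4095 + 1 ∧ n / 4095 % 4095 + 1 < 4096
          omega
        · show 0 < n % 4095 + 1 ∧ n % 4095 + 1 < 4096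
          omega
      · exact hl' a ha
    · rw [val, Q18_Vz]
      have e1 : (16769025 * (((![n / 16769025 + 1, n / 4095 % 4095 + 1, n % 4095 + 1] :
            Fin 3 → ℕ) 0 : ℕ) : ℝ) +
          4095 * (((![n / 16769025 + 1, n / 4095 % 4095 + 1, n % 4095 + 1] :
            Fin 3 → ℕ) 1 : ℕ) : ℝ) +
          (((![n / 16769025 + 1, n / 4095 % 4095 + 1, n % 4095 + 1] : Fin 3 → ℕ) 2 : ℕ) : ℝ)) =
          n + (16769025 + 4095 + 1) := by
        show (16769025 * ((n / 16769025 + 1 : ℕ) : ℝ) + 4095 * ((n / 4095 % 4095 + 1 : ℕ) : ℝ) +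
          ((n % 4095 + 1 : ℕ) : ℝ)) = n + (16769025 + 4095 + 1)
        exact_mod_cast hdig
      rw [e1]
      have e2 : (n + (16769025 + 4095 + 1) + val l') / MM - v0 - t =
          (val l' - v0 - (t * MM - n)) / MM := by
        have e3 : (n + (16769025 + 4095 + 1) + val l') / MM =
            (16769025 + 4095 + 1 + v0) / MM + (n + val l' - v0) / MM := by ring
        rw [e3, Q18_v0_fix]
        field_simp
        ring
      rw [e2, abs_div, abs_of_pos hMM, pow_succ, ← div_div]
      exact div_le_div_of_nonneg_right hv hMM.le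

end Pool.Agent.Y203.QC
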