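import Mathlib
import Pool.Agent.Y203.QC.Phys
import Pool.Agent.Y26.QC.Q18
import Pool.Agent.Y220.QC.XBase
import Pool.Agent.Y210.QC.SVal
import Pool.Agent.Y165.QC.SNorm

/-!
Job QC-SSTEP (MP_7d4c8f_an, project QC of helper203): one step between good configurations.
-/

set_option autoImplicit false

open Set Filter Topology MeasureTheory

namespace Pool.Agent.Y203.QC

open Pool.Agent.Aub (mm lam Stk dt stp Sc S1 S2 Qx gT gt cT ct hC hX Dg Ty stg rho mu posn peel cE cF
  DD rb subTy subP subC sub broken Clamp Ix Zs stk reg mkz Wt f0 f1 f4 f6 g0 g1 M0 M4 M6 N1 tyj pj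
  Cell sT Dle vb tyn Jx EE mkp pz py pth LL psi Rho Realz Th yo PerField IsFlow action hT lat IsCurve)

/-! ### lists of cells -/

theorem SS_cl_succ (l : List Cell) (i : ℕ) : cl l (i + 1) = cl l.tail i := by
  cases l with
  | nil => simp [cl]
  | cons a t => rfl

theorem SS_cl_zero (l : List Cell) : cl l 0 = hd l := rfl

theorem SS_cl_nil (i : ℕ) : cl [] i = zc := by
  simp [cl, hd]

theorem SS_mem (l : List Cell) (i : ℕ) : cl l i = zc ∨ cl l i ∈ l := by
  induction i generalizing l with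
  | zero =>
    cases l with
    | nil => exact Or.inl rfl
    | cons a t => exact Or.inr (List.mem_cons_self)
  | succ i ih =>
    rw [SS_cl_succ]
    rcases ih l.tail with h | h
    · exact Or.inl h
    · exact Or.inr (List.mem_of_mem_tail h)

theorem SS_zc (k : Fin 3) : 0 < zc.D k ∧ zc.D k < mm := by
  show 0 < 1 ∧ 1 < mm
  unfold mm
  norm_num

theorem SS_good {l : List Cell} (h : Good l) (i : ℕ) :
    (cl l i).b = false ∧ (cl l i).c = false ∧ ∀ k, 0 < (cl l i).D k ∧ (cl l i).D k < mm := by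
  rcases SS_mem l i with hz | hz
  · rw [hz]
    exact ⟨rfl, rfl, SS_zc⟩
  · exact h _ hz

theorem SS_trunc_ext (N : ℕ) : ∀ l l' : List Cell, (∀ i, i < N → cl l i = cl l' i) →
    trunc N l = trunc N l' := by
  induction N with
  | zero => intro l l' _; rfl
  | succ N ih =>
    intro l l' h
    show hd l :: trunc N l.tail = hd l' :: trunc N l'.tail
    rw [ih l.tail l'.tail (fun i hi => by rw [← SS_cl_succ, ← SS_cl_succ]; exact h _ (by omega))]
    have := h 0 (by omega)
    rw [SS_cl_zero, SS_cl_zero] at this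
    rw [this]

theorem SS_cl_lt (N : ℕ) : ∀ (l t : List Cell) (i : ℕ), i < N →
    cl (trunc N l ++ t) i = cl l i := by
  induction N with
  | zero => intro l t i hi; omega
  | succ N ih =>
    intro l t i hi
    cases i with
    | zero => rfl
    | succ i =>
      rw [SS_cl_succ, SS_cl_succ]
      exact ih l.tail t i (by omega)

theorem SS_cl_ge (N : ℕ) : ∀ (l t : List Cell) (i : ℕ),
    cl (trunc N l ++ t) (N + i) = cl t i := by
  induction N with
  | zero => intro l t i; rw [Nat.zero_add]; rfl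
  | succ N ih =>
    intro l t i
    rw [show N + 1 + i = (N + i) + 1 by ring, SS_cl_succ]
    exact ih l.tail t i

theorem SS_base (N : ℕ) : ∀ l : List Cell, base N l ↔ ∀ i, i < N → (cl l i).b = false := by
  induction N with
  | zero => intro l; exact ⟨fun _ i hi => absurd hi (by omega), fun _ => trivial⟩
  | succ N ih =>
    intro l
    constructor
    · rintro ⟨h1, h2⟩ i hi
      cases i with
      | zero => exact h1
      | succ i =>
        rw [SS_cl_succ]
        exact (ih l.tail).1 h2 i (by omega)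
    · intro h
      refine ⟨h 0 (by omega), (ih l.tail).2 fun i hi => ?_⟩
      rw [← SS_cl_succ]
      exact h (i + 1) (by omega)

theorem SS_mem_trunc (N : ℕ) : ∀ (l : List Cell) (a : Cell), a ∈ trunc N l →
    ∃ i, i < N ∧ a = cl l i := by
  induction N with
  | zero => intro l a ha; exact absurd ha (by simp [trunc])
  | succ N ih =>
    intro l a ha
    rcases List.mem_cons.mp ha with h | h
    · exact ⟨0, by omega, h⟩
    · obtain ⟨i, hi, he⟩ := ih l.tail a h
      exact ⟨i + 1, by omega, by rw [SS_cl_succ]; exact he⟩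

theorem SS_Val (l : List Cell) (h : ∀ a ∈ l, a.b = false ∧ a.c = false) (ty : Ty) : Val ty l := by
  induction l generalizing ty with
  | nil => rw [Val]; trivial
  | cons a tl ih =>
    obtain ⟨hb, hc⟩ := h a List.mem_cons_self
    rw [Val]
    exact ⟨fun _ => by rw [hb, hc]; rfl, ih (fun b hb => h b (List.mem_cons_of_mem _ hb)) _⟩

/-! ### good configurations recur -/

/-- the invariant -/
def SS_P (l₀ l : List Cell) : Prop :=
  ∀ i, (cl l i).D = (cl l₀ i).D

def SS_Q (l₀ : List Cell) : Prop := ∀ i k, 0 < (cl l₀ i).D k ∧ (cl l₀ i).D k < mm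

theorem SS_cons (l₀ l : List Cell) : SS_P l₀ l ↔
    (hd l).D = (hd l₀).D ∧ SS_P l₀.tail l.tail := by
  constructor
  · intro h
    refine ⟨h 0, fun i => ?_⟩
    rw [← SS_cl_succ, ← SS_cl_succ]
    exact h (i + 1)
  · rintro ⟨h1, h2⟩ i
    cases i with
    | zero => exact h1
    | succ i =>
      rw [SS_cl_succ, SS_cl_succ]
      exact h2 i

theorem SS_Qtail {l₀ : List Cell} (h : SS_Q l₀) : SS_Q l₀.tail := by
  intro i k
  rw [← SS_cl_succ]
  exact h (i + 1) k

theorem SS_tt (a e : Cell) (he : e.D 0 < mm) : tt a e = 0 := by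
  unfold tt
  rw [if_neg]
  rintro ⟨_, h, _⟩
  omega

theorem SS_uu (a e : Cell) (he : 0 < e.D 0) : uu a e = 0 := by
  unfold uu
  rw [if_neg]
  rintro ⟨_, h, _⟩
  omega

theorem SS_low (x y : ℕ) (hy : y < mm) (hy0 : 0 < y) : low x y = (x, y) := by
  unfold low
  rw [if_neg (by omega), if_neg (by omega)]

theorem SS_carry (D : Fin 3 → ℕ) (h : ∀ k, 0 < D k ∧ D k < mm) : carry D (D 2) = D := by
  have h1 := h 1
  have h2 := h 2
  unfold carry
  rw [SS_low (D 1) (D 2) h2.2 h2.1]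
  dsimp only
  rw [SS_low (D 0) (D 1) h1.2 h1.1]
  funext k
  fin_cases k <;> rfl

theorem SS_newc (a e : Cell) (ha : ∀ k, 0 < a.D k ∧ a.D k < mm) (he : 0 < e.D 0 ∧ e.D 0 < mm) :
    (newc false a e).D = a.D := by
  unfold newc
  simp only [SS_tt a e he.2, SS_uu a e he.1, Nat.add_zero, Nat.sub_zero]
  exact SS_carry _ ha

theorem SS_stE {l₀ l : List Cell} (hQ : SS_Q l₀) (h : SS_P l₀ l) :
    SS_P l₀ (stE false l) := by
  have h0 := (SS_cons _ _).1 h
  have hd0 : ∀ k, 0 < (hd l).D k ∧ (hd l).D k < mm := fun k => by rw [h0.1]; exact hQ 0 k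
  have h1 := (SS_cons _ _).1 h0.2
  have hd1 : 0 < (hd l.tail).D 0 ∧ (hd l.tail).D 0 < mm := by
    rw [h1.1]
    exact SS_Qtail hQ 0 0
  cases l with
  | nil =>
    rw [SS_cons]
    refine ⟨?_, h0.2⟩
    show (newc false zc zc).D = _
    rw [SS_newc zc zc hd0 hd1]
    exact h0.1
  | cons a tl =>
    have e : stE false (a :: tl) = newc false a (hd tl) :: tl := by
      show newc false a (hd tl) :: upd a tl = _
      unfold upd
      rw [SS_tt a (hd tl) hd1.2, if_neg (by norm_num), SS_uu a (hd tl) hd1.1,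
        if_neg (by norm_num)]
    rw [e, SS_cons]
    refine ⟨?_, h0.2⟩
    show (newc false a (hd tl)).D = _
    rw [SS_newc a (hd tl) hd0 hd1]
    exact h0.1

theorem SS_stF (l : List Cell) : ∀ l₀ : List Cell, SS_Q l₀ → SS_P l₀ l →
    SS_P l₀ (stF l) := by
  induction l with
  | nil =>
    intro l₀ hQ h
    have h0 := (SS_cons _ _).1 h
    rw [SS_cons]
    exact ⟨h0.1, SS_stE (SS_Qtail hQ) h0.2⟩
  | cons a tl ih =>
    intro l₀ hQ h
    have h0 := (SS_cons _ _).1 h
    rw [SS_cons]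
    refine ⟨h0.1, ?_⟩
    show SS_P l₀.tail (if a.b then stF tl else stE false tl)
    split_ifs
    · exact ih _ (SS_Qtail hQ) h0.2
    · exact SS_stE (SS_Qtail hQ) h0.2

theorem SS_run (n : ℕ) : ∀ (ty : Ty) (l₀ l : List Cell), SS_Q l₀ → SS_P l₀ l →
    SS_P l₀ (run n (fun _ => false) ty l) := by
  induction n with
  | zero => intro ty l₀ l _ h; exact h
  | succ n ih =>
    intro ty l₀ l hQ h
    show SS_P l₀ (run n (fun _ => false) ty.other (st ty false l))
    apply ih _ _ _ hQ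
    cases ty with
    | E => exact SS_stE hQ h
    | F => exact SS_stF l l₀ hQ h

/-- equality of the first cells from digits and bits -/
theorem SS_trunc_eq (N : ℕ) (l l' : List Cell) (hb : base N l) (hc : Cb l) (hl' : Good l')
    (hD : ∀ i, i < N → (cl l i).D = (cl l' i).D) : trunc N l = trunc N l' := by
  apply SS_trunc_ext
  intro i hi
  have h1 := (SS_base N l).1 hb i hi
  have h2 := hc i h1
  have h3 := SS_good hl' i
  have h4 := hD i hi
  cases hx : cl l i with
  | mk b c D =>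
    cases hy : cl l' i with
    | mk b' c' D' =>
      rw [hx] at h1 h2 h4
      rw [hy] at h3 h4
      simp only at h1 h2 h3 h4
      rw [h1, h2, h4, h3.1, h3.2.1]

theorem run_good (N k : ℕ) (l : List Cell) (h : Good l) :
    trunc N (run (2 ^ (N + 1) * k) (fun _ => false) Ty.E l) = trunc N l := by
  have hb := run_base N (fun _ => false) Ty.E l k ((good_facts l h).2.2 N)
  have hQ : SS_Q l := fun i k => (SS_good h i).2.2 k
  have hP : SS_P l l := fun i => rfl
  have hC : Cb l := fun i _ => (SS_good h i).2.1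
  exact SS_trunc_eq N _ l hb (Cb_run _ _ _ _ hC) h
    (fun i _ => SS_run _ _ _ _ hQ hP i)

/-! ### the step -/

theorem SS_MM (N : ℕ) : (MM : ℝ) ^ N = (((68669157375 : ℤ) ^ N : ℤ) : ℝ) := by
  unfold MM
  push_cast
  rfl

theorem SS_floor_mem (N : ℕ) (l : List Cell)
    (hg : ∀ (i : ℕ) (k : Fin 3), 0 < (cl l i).D k ∧ (cl l i).D k < mm) :
    (0 : ℝ) ≤ (⌊(val l - v0) * MM ^ N⌋ : ℝ) ∧ (⌊(val l - v0) * MM ^ N⌋ : ℝ) + 1 ≤ MM ^ N := by
  obtain ⟨h1, h2⟩ := val_mem l hg
  have hM : (0 : ℝ) < MM ^ N := pow_pos Q18_MMpos N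
  constructor
  · have : (0 : ℤ) ≤ ⌊(val l - v0) * MM ^ N⌋ :=
      Int.floor_nonneg.mpr (mul_nonneg (by linarith) hM.le)
    exact_mod_cast this
  · have h3 : (val l - v0) * MM ^ N < MM ^ N := by nlinarith
    rw [SS_MM] at h3 ⊢
    have h4 : ⌊(val l - v0) * (((68669157375 : ℤ) ^ N : ℤ) : ℝ)⌋ < (68669157375 : ℤ) ^ N :=
      Int.floor_lt.mpr h3
    exact_mod_cast h4

theorem SS_last (x : ℕ) : val [⟨false, false, ![x, 1, 1]⟩] - v0 = ((x : ℝ) - 1) / 4095 := by
  rw [val, Q18_Vz]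
  have e1 : (16769025 * ((![x, 1, 1] : Fin 3 → ℕ) 0 : ℝ) +
      4095 * ((![x, 1, 1] : Fin 3 → ℕ) 1 : ℝ) + ((![x, 1, 1] : Fin 3 → ℕ) 2 : ℝ)) =
      16769025 * (x : ℝ) + 4095 * 1 + 1 := by
    show (16769025 * (x : ℝ) + 4095 * ((1 : ℕ) : ℝ) + ((1 : ℕ) : ℝ)) = _
    push_cast
    ring
  simp only [val]
  rw [e1, Q18_v0]
  unfold MM
  ring

theorem SS_aux (N x : ℕ) (hx : x ≤ mm) (l l' : List Cell) (hl : Good l) (hl' : Good l')
    (hfl : ⌊(⌊(val l - v0) * MM ^ N⌋ : ℝ) + ((x : ℝ) - 1) / 4095⌋ = ⌊(val l' - v0) * MM ^ N⌋) :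
    ∃ (l1 : List Cell) (n : ℕ), 1 ≤ n ∧ Dle l1 ∧ Val Ty.E l1 ∧ base N l1 ∧
      trunc N l1 = trunc N l ∧
      trunc N (run (6 * n) (fun _ => false) Ty.E l1) = trunc N l' := by
  obtain ⟨T, hT⟩ := ex_norm N
  have hg : ∀ (i : ℕ) (k : Fin 3), 0 < (cl l i).D k ∧ (cl l i).D k < mm :=
    fun i k => (SS_good hl i).2.2 k
  have hg' : ∀ (i : ℕ) (k : Fin 3), 0 < (cl l' i).D k ∧ (cl l' i).D k < mm :=
    fun i k => (SS_good hl' i).2.2 k
  have hmm : 1 < mm := by unfold mm; norm_num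
  have hM : (0 : ℝ) < MM ^ N := pow_pos Q18_MMpos N
  set c : Cell := ⟨false, false, ![x, 1, 1]⟩ with hc
  set l1 : List Cell := trunc N l ++ [c] with hl1
  have hcellt : ∀ a ∈ l1, a.b = false ∧ a.c = false ∧ ∀ k, a.D k ≤ mm := by
    intro a ha
    rcases List.mem_append.mp ha with h | h
    · obtain ⟨i, _, rfl⟩ := SS_mem_trunc N l a h
      have := SS_good hl i
      exact ⟨this.1, this.2.1, fun k => (this.2.2 k).2.le⟩
    · rw [List.mem_singleton] at h
      rw [h]
      refine ⟨rfl, rfl, fun k => ?_⟩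
      fin_cases k
      · exact hx
      · exact hmm.le
      · exact hmm.le
  have hD1 : Dle l1 := fun a ha k => (hcellt a ha).2.2 k
  have hV1 : Val Ty.E l1 := SS_Val l1 (fun a ha => ⟨(hcellt a ha).1, (hcellt a ha).2.1⟩) _
  have hbc : ∀ i, (cl l1 i).b = false ∧ (cl l1 i).c = false := by
    intro i
    rcases SS_mem l1 i with h | h
    · rw [h]; exact ⟨rfl, rfl⟩
    · exact ⟨(hcellt _ h).1, (hcellt _ h).2.1⟩
  have hB1 : base N l1 := (SS_base N l1).2 fun i _ => (hbc i).1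
  have hC1 : Cb l1 := fun i _ => (hbc i).2
  have hE1 : Ex N l1 := by
    intro i k
    rcases Nat.lt_or_ge i N with hi | hi
    · right
      rw [hl1, SS_cl_lt N l [c] i hi]
      exact hg i k
    · obtain ⟨j, rfl⟩ := Nat.exists_eq_add_of_le hi
      rw [hl1, SS_cl_ge]
      cases j with
      | zero =>
        fin_cases k
        · left; exact ⟨rfl, rfl⟩
        · right; exact ⟨Nat.one_pos, hmm⟩
        · right; exact ⟨Nat.one_pos, hmm⟩
      | succ j =>
        right
        rw [SS_cl_succ]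
        show 0 < (cl [] j).D k ∧ (cl [] j).D k < mm
        rw [SS_cl_nil]
        exact SS_zc k
  refine ⟨l1, 2 ^ (N + 1) * (T + 1), ?_, hD1, hV1, hB1, ?_, ?_⟩
  · exact Nat.one_le_iff_ne_zero.mpr (by positivity)
  · exact SS_trunc_ext N _ _ fun i hi => SS_cl_lt N l [c] i hi
  · have hn : T ≤ 6 * (2 ^ (N + 1) * (T + 1)) := by
      have : 1 ≤ 2 ^ (N + 1) := Nat.one_le_two_pow
      nlinarith
    have hE2 := hT _ hn Ty.E l1 hD1 hE1
    have hC2 := Cb_run (6 * (2 ^ (N + 1) * (T + 1))) (fun _ => false) Ty.E l1 hC1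
    obtain ⟨hD2, hv2⟩ := run_value (6 * (2 ^ (N + 1) * (T + 1))) Ty.E l1 hD1
    have hB2 : base N (run (6 * (2 ^ (N + 1) * (T + 1))) (fun _ => false) Ty.E l1) := by
      have := run_base N (fun _ => false) Ty.E l1 (6 * (T + 1)) hB1
      rwa [show 2 ^ (N + 1) * (6 * (T + 1)) = 6 * (2 ^ (N + 1) * (T + 1)) by ring] at this
    generalize run (6 * (2 ^ (N + 1) * (T + 1))) (fun _ => false) Ty.E l1 = l2 at *
    have hv1 := val_trunc N l [c] hg
    rw [← hl1, hc, SS_last x] at hv1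
    obtain ⟨hf1, hf2⟩ := SS_floor_mem N l' hg'
    set y : ℝ := (⌊(val l - v0) * MM ^ N⌋ : ℝ) + ((x : ℝ) - 1) / 4095 with hy
    have hy1 : (⌊(val l' - v0) * MM ^ N⌋ : ℝ) ≤ y := by
      rw [← hfl]; exact Int.floor_le y
    have hy2 : y < (⌊(val l' - v0) * MM ^ N⌋ : ℝ) + 1 := by
      rw [← hfl]; exact Int.lt_floor_add_one y
    have hval : val l2 - v0 = y / MM ^ N := by
      rw [hv2, hv1]; ring
    have h0 : 0 ≤ val l2 - v0 := by
      rw [hval]; exact div_nonneg (hf1.trans hy1) hM.le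
    have h1 : val l2 - v0 < 1 := by
      rw [hval, div_lt_one hM]; linarith
    have hne : (hd l2).D 0 ≠ mm := by
      intro h
      have := val_top l2 hD2 hE2 h
      linarith
    have hn0 : (hd l2).D 0 ≠ 0 := by
      intro h
      have := val_bot l2 hD2 hE2 h
      linarith
    have hle : (hd l2).D 0 ≤ mm := by
      rcases SS_mem l2 0 with h | h
      · rw [SS_cl_zero] at h
        rw [h]
        exact (SS_zc 0).2.le
      · rw [SS_cl_zero] at h
        exact hD2 _ h 0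
    have hg2 : ∀ (i : ℕ) (k : Fin 3), 0 < (cl l2 i).D k ∧ (cl l2 i).D k < mm := by
      intro i k
      rcases hE2 i k with ⟨hk, hi⟩ | h
      · subst hk; subst hi
        rw [SS_cl_zero]
        omega
      · exact h
    refine SS_trunc_eq N l2 l' hB2 hC2 hl' fun i hi => ?_
    refine trunc_of_val N l2 l' hg2 hg' ?_ i hi
    rw [hval, div_mul_cancel₀ _ hM.ne']
    exact hfl

theorem good_step (N : ℕ) (l l' : List Cell) (hl : Good l) (hl' : Good l')
    (hN : |val l - val l'| < 1 / MM ^ N) :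
    ∃ (l1 : List Cell) (n : ℕ), 1 ≤ n ∧ Dle l1 ∧ Val Ty.E l1 ∧ base N l1 ∧
      trunc N l1 = trunc N l ∧
      trunc N (run (6 * n) (fun _ => false) Ty.E l1) = trunc N l' := by
  have hM : (0 : ℝ) < MM ^ N := pow_pos Q18_MMpos N
  have hmm : 1 < mm := by unfold mm; norm_num
  have hxy : |(val l - v0) * MM ^ N - (val l' - v0) * MM ^ N| < 1 := by
    rw [← sub_mul, abs_mul, abs_of_pos hM, show val l - v0 - (val l' - v0) = val l - val l' by ring]
    rwa [lt_div_iff₀ hM] at hN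
  rw [abs_lt] at hxy
  have a1 := Int.floor_le ((val l - v0) * MM ^ N)
  have a2 := Int.lt_floor_add_one ((val l - v0) * MM ^ N)
  have b1 := Int.floor_le ((val l' - v0) * MM ^ N)
  have b2 := Int.lt_floor_add_one ((val l' - v0) * MM ^ N)
  have c1 : (⌊(val l - v0) * MM ^ N⌋ : ℝ) < ⌊(val l' - v0) * MM ^ N⌋ + 2 := by linarith
  have c2 : (⌊(val l' - v0) * MM ^ N⌋ : ℝ) < ⌊(val l - v0) * MM ^ N⌋ + 2 := by linarith
  have c1' : ⌊(val l - v0) * MM ^ N⌋ < ⌊(val l' - v0) * MM ^ N⌋ + 2 := by exact_mod_cast c1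
  have c2' : ⌊(val l' - v0) * MM ^ N⌋ < ⌊(val l - v0) * MM ^ N⌋ + 2 := by exact_mod_cast c2
  rcases lt_trichotomy ⌊(val l' - v0) * MM ^ N⌋ ⌊(val l - v0) * MM ^ N⌋ with h | h | h
  · -- one less
    have h' : ⌊(val l' - v0) * MM ^ N⌋ = ⌊(val l - v0) * MM ^ N⌋ - 1 := by omega
    refine SS_aux N 0 (by omega) l l' hl hl' ?_
    rw [h', Int.floor_eq_iff]
    push_cast
    constructor
    · norm_num
      linarith
    · norm_num
  · refine SS_aux N 1 (by omega) l l' hl hl' ?_
    rw [h, Int.floor_eq_iff]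
    push_cast
    constructor <;> norm_num
  · have h' : ⌊(val l' - v0) * MM ^ N⌋ = ⌊(val l - v0) * MM ^ N⌋ + 1 := by omega
    refine SS_aux N mm le_rfl l l' hl hl' ?_
    rw [h', Int.floor_eq_iff]
    unfold mm
    push_cast
    constructor <;> norm_num

end Pool.Agent.Y203.QC
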